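import Mathlib
import Pool.Agent.MP_4e8562_co.H66b.Exact

/-! Adding stars to a tree partition of a smaller complete bipartite graph. -/

namespace Pool.Agent.MP_4e8562_co.H80

open Finset Real Pool.Agent.MP_4e8562_co.H97 Pool.Agent.MP_4e8562_co.H66b
  Pool.Agent.MP_4e8562_co.H78 Pool.Agent.MP_4e8562_co.H66

variable {n m r : ℕ}

theorem reach_of_part {V : Type} {G : SimpleGraph V} {χ : G.edgeSet → Fin r} {k : ℕ}
    (hr : 0 < r) (v₀ : V) (h : Part G χ k) :
    ∃ (S : Finset G.Subgraph) (lab : V → G.Subgraph) (col : G.Subgraph → Fin r)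
      (rt : G.Subgraph → V), #S ≤ k ∧ (∀ v, lab v ∈ S) ∧ ∀ v, Relation.ReflTransGen
        (fun a b => lab a = lab b ∧ ∃ he : G.Adj a b, χ ⟨s(a, b), he⟩ = col (lab a)) v
        (rt (lab v)) := by
  obtain ⟨S, h1, h2, h3⟩ := h
  have : Nonempty (Fin r) := ⟨⟨0, hr⟩⟩
  have : Nonempty V := ⟨v₀⟩
  choose lab l1 l2 using h3
  choose! col hcol using fun T hT => (h2 T hT).2
  have h4 : ∀ T ∈ S, ∃ z, z ∈ T.verts := fun T hT =>
    let ⟨z⟩ := (h2 T hT).1.connected.nonempty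
    ⟨z.1, z.2⟩
  choose! rt hrt using h4
  refine ⟨S, lab, col, rt, h1, fun v => (l1 v).1, fun v => ?_⟩
  have h5 := ((h2 _ (l1 v).1).1.connected.preconnected ⟨v, (l1 v).2⟩ ⟨_, hrt _ (l1 v).1⟩)
  rw [SimpleGraph.reachable_iff_reflTransGen] at h5
  refine Relation.ReflTransGen.lift Subtype.val (fun a b hab => ?_) _ _ h5
  have ea : lab v = lab a := l2 a _ ⟨(l1 v).1, a.2⟩
  have eb : lab v = lab b := l2 b _ ⟨(l1 v).1, b.2⟩
  exact ⟨ea.symm.trans eb, (lab v).adj_sub hab, ea ▸ hcol _ (l1 v).1 _ hab⟩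

theorem glue (hr : 0 < r) (χ : (K n m).edgeSet → Fin r) (F : Finset (Fin n)) (s : Fin r)
    {n' m' k : ℕ} (b₀ : Fin m') (e : Fin n' ↪ Fin n) (f : Fin m' ↪ Fin m)
    (he : ∀ x, x ∉ F ↔ ∃ a, e a = x) (hf : ∀ b, (∀ x ∈ F, vec χ b x ≠ s) → ∃ b', f b' = b)
    (χ' : (K n' m').edgeSet → Fin r) (hχ : vec χ' = fun b a => vec χ (f b) (e a))
    (h : Part (K n' m') χ' k) : Part (K n m) χ (k + #F) := by
  classical
  obtain ⟨S, lab, col, rt, h1, h2, h3⟩ := reach_of_part hr (Sum.inr b₀) h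
  have hφ : Function.Injective (Sum.map e f) := e.injective.sumMap f.injective
  have hc : ∀ v : Fin n ⊕ Fin m, (¬ ∃ u, Sum.map e f u = v) →
      ∃ x ∈ F, v = Sum.inl x ∨ ∃ b, v = Sum.inr b ∧ vec χ b x = s := by
    rintro (x | b) hv
    · exact ⟨x, by_contra fun hx => hv (let ⟨a, ha⟩ := (he x).1 hx; ⟨Sum.inl a, congrArg _ ha⟩),
        Or.inl rfl⟩
    · by_contra hb
      obtain ⟨b', hb'⟩ := hf b fun x hx hs => hb ⟨x, hx, Or.inr ⟨b, rfl, hs⟩⟩
      exact hv ⟨Sum.inr b', congrArg _ hb'⟩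
  let lab' : Fin n ⊕ Fin m → (K n' m').Subgraph ⊕ Fin n := fun v =>
    if hv : ∃ u, Sum.map e f u = v then Sum.inl (lab hv.choose) else Sum.inr (hc v hv).choose
  have l1 : ∀ u, lab' (Sum.map e f u) = Sum.inl (lab u) := fun u => by
    have hv : ∃ u', Sum.map e f u' = Sum.map e f u := ⟨u, rfl⟩
    simp only [lab', dif_pos hv, hφ hv.choose_spec]
  have l2 : ∀ x ∈ F, lab' (Sum.inl x) = Sum.inr x := fun x hx => by
    have hv : ¬ ∃ u, Sum.map e f u = Sum.inl x := by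
      rintro ⟨a | b, ha⟩
      · exact (he x).2 ⟨a, Sum.inl_injective ha⟩ hx
      · cases ha
    simp only [lab', dif_neg hv]
    obtain ⟨-, h | ⟨b, h, -⟩⟩ := (hc _ hv).choose_spec
    · exact congrArg _ (Sum.inl_injective h).symm
    · cases h
  refine (part_of_reach (K n m) χ lab' (Sum.elim col fun _ => s)
    (Sum.elim (fun T => Sum.map e f (rt T)) Sum.inl) (S.disjSum F) (fun v => ?_) fun v => ?_).mono
    (by rw [card_disjSum]; omega)
  · by_cases hv : ∃ u, Sum.map e f u = v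
    · simp only [lab', dif_pos hv, inl_mem_disjSum, h2]
    · simp only [lab', dif_neg hv, inr_mem_disjSum, (hc v hv).choose_spec.1]
  · by_cases hv : ∃ u, Sum.map e f u = v
    · obtain ⟨u, rfl⟩ := hv
      rw [l1]
      refine Relation.ReflTransGen.lift (Sum.map e f) (fun a b hab => ?_) _ _ (h3 u)
      obtain ⟨p1, p2, p3⟩ := hab
      simp only [Function.onFun]
      rw [l1, l1, p1]
      refine ⟨rfl, ?_⟩
      rw [p1] at p3
      rcases a with a | a <;> rcases b with b | b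
      · simp at p2
      · exact ⟨K_adj _ _, (congrFun (congrFun hχ b) a).symm.trans p3⟩
      · refine ⟨(K_adj _ _).symm, ?_⟩
        have q1 : vec χ' a b = col (lab (Sum.inl b)) := by
          rw [← p3, vec]
          congr 2
          exact Sym2.eq_swap
        rw [Sum.elim_inl, ← q1, hχ]
        simp only [vec]
        congr 2
        exact Sym2.eq_swap
      · simp at p2
    · have l3 : lab' v = Sum.inr (hc v hv).choose := by simp only [lab', dif_neg hv]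
      obtain ⟨hx, h | ⟨b, h, hs⟩⟩ := (hc v hv).choose_spec
      · rw [l3, Sum.elim_inr, ← h]
      · generalize (hc v hv).choose = x at *
        subst h
        rw [l3, Sum.elim_inr]
        refine Relation.ReflTransGen.single ⟨l3.trans (l2 x hx).symm, (K_adj _ _).symm, ?_⟩
        rw [l3, Sum.elim_inr, ← hs, vec]
        congr 2
        exact Sym2.eq_swap

theorem Psi_le (hr : 0 < r) : (Psi r n m : ℝ) ≤ m * (1 - 1 / (r : ℝ)) ^ n := by
  obtain ⟨W, hW⟩ := Psi_spec hr n m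
  obtain ⟨c, hc⟩ := fix_greedy hr W ∅ ⟨0, hr⟩
  simp only [notMem_empty, false_imp_iff, implies_true, filter_true, card_univ, Fintype.card_fin,
    compl_empty] at hc
  exact (Nat.cast_le.2 (hW c)).trans hc

theorem mul_rho_le (hr : 2 ≤ r) (k : ℕ) : k * (1 - 1 / (r : ℝ)) ^ k ≤ r := by
  have hr2 : (2 : ℝ) ≤ r := by exact_mod_cast hr
  have h0 : 0 < 1 - 1 / (r : ℝ) := by rw [sub_pos, div_lt_one] <;> linarith
  have h1 : (1 - 1 / (r : ℝ)) * (1 + 1 / r) ≤ 1 := by nlinarith [sq_nonneg (1 / (r : ℝ))]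
  have h2 := one_add_mul_le_pow (a := 1 / (r : ℝ)) (le_trans (by norm_num) (by positivity : (0 : ℝ) ≤ _)) k
  have h3 : (1 - 1 / (r : ℝ)) ^ k * (1 + 1 / r) ^ k ≤ 1 := by
    rw [← mul_pow]
    exact pow_le_one₀ (by positivity) h1
  have h4 := pow_pos h0 k
  have h5 : (1 - 1 / (r : ℝ)) ^ k * (k * (1 / r)) ≤ 1 := by nlinarith
  rw [mul_one_div, ← mul_div_assoc, div_le_one (by linarith)] at h5
  linarith

/-- a partition that starts with the stars of colour `s` at the vertices of `F` -/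
theorem upper_fix (hr : 2 ≤ r) (hn : 1 ≤ n) (hnm : n ≤ m) (χ : (K n m).edgeSet → Fin r)
    (F : Finset (Fin n)) (s : Fin r) {M : ℝ} (hM : n ≤ M)
    (h : (#{b | ∀ x ∈ F, vec χ b x ≠ s} : ℝ) ≤ M) :
    ∃ k, Part (K n m) χ k ∧ (k : ℝ) ≤ M * (1 - 1 / (r : ℝ)) ^ #Fᶜ + 6100 * r ^ 2 * log r + #F := by
  have hr2 : (2 : ℝ) ≤ r := by exact_mod_cast hr
  have h0 : 0 < 1 - 1 / (r : ℝ) := by rw [sub_pos, div_lt_one] <;> linarith
  obtain ⟨Y, y1, -, y2⟩ := exists_subsuperset_card_eq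
    (subset_univ ({b | ∀ x ∈ F, vec χ b x ≠ s} : Finset (Fin m))) (le_max_left _ n)
    (max_le (card_le_univ _) (by simpa using hnm))
  have y3 : n ≤ #Y := y2 ▸ le_max_right _ _
  have y4 : (#Y : ℝ) ≤ M := by
    rw [y2, Nat.cast_max]
    exact max_le h hM
  obtain ⟨χ', hχ⟩ := exists_colouring fun b a =>
    vec χ ((Y.orderEmbOfFin rfl).toEmbedding b) ((Fᶜ.orderEmbOfFin rfl).toEmbedding a)
  obtain ⟨k, k1, k2⟩ := upper hr (((card_le_univ _).trans (by simp)).trans y3) χ'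
  refine ⟨_, glue (by omega) χ F s ⟨0, by omega⟩ _ _ (fun x => ?_) (fun b hb => ?_) χ' hχ k1, ?_⟩
  · rw [← mem_compl, ← mem_coe, ← range_orderEmbOfFin _ rfl]
    rfl
  · have : b ∈ (Y : Set (Fin m)) := y1 (mem_filter.2 ⟨mem_univ _, hb⟩)
    rwa [← range_orderEmbOfFin _ rfl] at this
  · have := Psi_le (n := #Fᶜ) (m := #Y) (by omega : 0 < r)
    have := mul_le_mul_of_nonneg_right y4 (pow_pos h0 #Fᶜ).le
    push_cast
    linarith

end Pool.Agent.MP_4e8562_co.H80
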