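import Mathlib

/-! Multiple covers of the ternary cube by binary subcubes from symmetric matrices over `ZMod 2`. -/

namespace Pool.Agent.MP_4e8562_co.H80

open Finset

variable {n a : ℕ}

/-- a square matrix and `a` extra columns -/
abbrev Par (n a : ℕ) := (Fin n → Fin n → ZMod 2) × (Fin a → Fin n → ZMod 2)

/-- the index set of the words -/
abbrev Pt (n a : ℕ) := (Fin n → ZMod 2) × (Fin a → ZMod 2)

/-- the symmetrized matrix applied to a point -/
def fld (p : Par n a) (q : Pt n a) (i : Fin n) : ZMod 2 :=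
  ∑ j, (p.1 i j + p.1 j i) * q.1 j + ∑ k, p.2 k i * q.2 k

/-- the word of a point -/
def word (p : Par n a) (q : Pt n a) (i : Fin n) : Fin 3 :=
  if q.1 i = 1 then 2 else if fld p q i = 0 then 0 else 1

/-- the points that are kept -/
def kept (p : Par n a) : Finset (Pt n a) := {q | ∀ i, q.1 i * fld p q i = 0}

theorem ker_card {G H : Type} [AddCommGroup G] [AddCommGroup H] [Fintype G] [DecidableEq H]
    (f : G →+ H) : #{g | f g = 0} * Nat.card f.range = Fintype.card G := by
  rw [← AddSubgroup.index_ker, ← Nat.card_eq_fintype_card, ← AddSubgroup.card_mul_index f.ker]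
  congr 1
  rw [← Nat.card_eq_finsetCard]
  exact Nat.card_congr (Equiv.subtypeEquivRight fun g => by simp)

theorem fld_add (p : Par n a) (q q' : Pt n a) (i : Fin n) :
    fld p (q + q') i = fld p q i + fld p q' i := by
  simp only [fld, Prod.fst_add, Prod.snd_add, Pi.add_apply, mul_add, sum_add_distrib]
  ring

theorem fld_add' (p p' : Par n a) (q : Pt n a) (i : Fin n) :
    fld (p + p') q i = fld p q i + fld p' q i := by
  simp only [fld, Prod.fst_add, Prod.snd_add, Pi.add_apply, add_mul, sum_add_distrib]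
  ring

theorem quad (p : Par n a) (z : Fin n → ZMod 2) : ∑ i, z i * fld p (z, 0) i = 0 := by
  have h : ∑ i, ∑ j, z i * (p.1 j i * z j) = ∑ i, ∑ j, z i * (p.1 i j * z j) := by
    rw [sum_comm]
    exact sum_congr rfl fun i _ => sum_congr rfl fun j _ => by ring
  simp only [fld, Pi.zero_apply, mul_zero, sum_const_zero, add_zero, add_mul, sum_add_distrib,
    mul_add, mul_sum]
  rw [h]
  exact CharTwo.add_self_eq_zero _

/-- the linear system attached to the coefficients `α`, `β` -/
def sys (p : Par n a) (α β : Fin n → ZMod 2) : Pt n a →ₗ[ZMod 2] (Fin n → ZMod 2) :=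
  AddMonoidHom.toZModLinearMap 2 (AddMonoidHom.mk' (fun q i => α i * q.1 i + β i * fld p q i)
    fun q q' => funext fun i => by
      simp only [fld_add, Prod.fst_add, Pi.add_apply]
      ring)

theorem sys_apply (p : Par n a) (α β : Fin n → ZMod 2) (q : Pt n a) (i : Fin n) :
    sys p α β q i = α i * q.1 i + β i * fld p q i := rfl

theorem solvable (p : Par n a) (α β : Fin n → ZMod 2) :
    ∃ q, sys p α β q = fun i => α i * β i := by
  by_contra h
  obtain ⟨f, h1, h2⟩ := Submodule.exists_le_ker_of_notMem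
    (p := LinearMap.range (sys p α β)) (v := fun i => α i * β i) h
  set s : Fin n → ZMod 2 := fun i => f fun j => if i = j then 1 else 0 with hs
  have e : ∀ v, f v = ∑ i, v i * s i := fun v => by
    rw [LinearMap.pi_apply_eq_sum_univ f v]
    rfl
  have h3 : f (sys p α β (fun i => β i * s i, 0)) = 0 := h2 ⟨_, rfl⟩
  have h4 := quad p fun i => β i * s i
  apply h1
  rw [e] at h3 ⊢
  rw [← h3, ← add_zero (∑ i, α i * β i * s i), ← h4, ← sum_add_distrib]
  refine sum_congr rfl fun i _ => ?_
  rw [sys_apply]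
  have : ∀ u : ZMod 2, u * u = u := by decide
  linear_combination (-(α i * β i)) * this (s i)

theorem many (p : Par n a) (x : Fin n → Fin 3) :
    2 ^ a ≤ #{q ∈ kept p | ∀ i, word p q i ≠ x i} := by
  set α : Fin n → ZMod 2 := fun i => if x i = 1 then 0 else 1 with hα
  set β : Fin n → ZMod 2 := fun i => if x i = 2 then 0 else 1 with hβ
  obtain ⟨q₀, h₀⟩ := solvable p α β
  have h1 := ker_card (sys p α β).toAddMonoidHom
  have h2 : Nat.card (sys p α β).toAddMonoidHom.range ≤ 2 ^ n :=
    (Nat.card_le_card_of_injective _ Subtype.val_injective).trans (by simp)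
  have h3 : 2 ^ a ≤ #{g | (sys p α β).toAddMonoidHom g = 0} := by
    refine Nat.le_of_mul_le_mul_right (c := 2 ^ n) ?_ (by positivity)
    refine le_trans (le_of_eq ?_) (Nat.mul_le_mul_left _ h2)
    rw [h1]
    simp [mul_comm]
  refine h3.trans (card_le_card_of_injOn (fun g => q₀ + g) (fun g hg => ?_)
    (add_right_injective q₀).injOn)
  have h4 : sys p α β g = 0 := by simpa using hg
  have h5 : ∀ i, α i * (q₀ + g).1 i + β i * fld p (q₀ + g) i = α i * β i := fun i => by
    rw [← sys_apply, map_add, h4, add_zero, h₀]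
  have key : ∀ (c : Fin 3) (y L : ZMod 2), (if c = 1 then 0 else 1) * y +
      (if c = 2 then 0 else 1) * L = (if c = 1 then 0 else 1) * (if c = 2 then 0 else 1) →
      y * L = 0 ∧ (if y = 1 then 2 else if L = 0 then 0 else 1) ≠ c := by decide
  simp only [kept, coe_filter, mem_filter, mem_univ, true_and, Set.mem_ofPred_eq]
  exact ⟨fun i => (key _ _ _ (h5 i)).1, fun i => (key _ _ _ (h5 i)).2⟩

theorem fiber (q : Pt n a) (T : Finset (Fin n))
    (h : ∀ v : Fin n → ZMod 2, ∃ p : Par n a, ∀ i ∈ T, fld p q i = v i) :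
    #{p : Par n a | ∀ i ∈ T, fld p q i = 0} * 2 ^ #T = Fintype.card (Par n a) := by
  let θ : Par n a →+ (T → ZMod 2) :=
    AddMonoidHom.mk' (fun p i => fld p q i) fun p p' => funext fun i => fld_add' p p' q i
  have h1 : θ.range = ⊤ := by
    rw [AddMonoidHom.range_eq_top]
    intro v
    obtain ⟨p, hp⟩ := h fun i => if hi : i ∈ T then v ⟨i, hi⟩ else 0
    exact ⟨p, funext fun i => (hp i i.2).trans (by simp)⟩
  have h2 := ker_card θ
  rw [h1] at h2
  rw [← h2]
  congr 1
  · congr 1
    ext p
    simp only [mem_filter, mem_univ, true_and, funext_iff]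
    exact ⟨fun hp i => hp i i.2, fun hp i hi => hp ⟨i, hi⟩⟩
  · simp

theorem rare (q : Pt n a) :
    #{p : Par n a | q ∈ kept p} * 2 ^ #{i | q.1 i = 1} ≤
      Fintype.card (Par n a) * if q.2 = 0 then 2 else 1 := by
  have one : ∀ u : ZMod 2, u ≠ 0 → u = 1 := by decide
  have sub : ∀ T ⊆ ({i | q.1 i = 1} : Finset (Fin n)), #{p : Par n a | q ∈ kept p} ≤
      #{p : Par n a | ∀ i ∈ T, fld p q i = 0} := fun T hT => card_le_card fun p hp => by
    simp only [kept, mem_filter, mem_univ, true_and] at hp ⊢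
    intro i hi
    have := hp i
    rwa [(mem_filter.1 (hT hi)).2, one_mul] at this
  split_ifs with ht
  · rcases ({i | q.1 i = 1} : Finset (Fin n)).eq_empty_or_nonempty with h | ⟨i₀, h⟩
    · rw [h, card_empty, pow_zero, mul_one]
      exact (card_le_univ _).trans (Nat.le_mul_of_pos_right _ two_pos)
    · have h1 := fiber q (({i | q.1 i = 1} : Finset (Fin n)).erase i₀) fun v =>
        ⟨(fun i j => if j = i₀ then v i else 0, 0), fun i hi => by
          simp [fld, (mem_erase.1 hi).1, (mem_filter.1 h).2]⟩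
      rw [← h1, ← card_erase_add_one h, pow_succ, mul_assoc]
      exact Nat.mul_le_mul_right _ (sub _ (erase_subset _ _))
  · obtain ⟨k₀, hk⟩ := Function.ne_iff.1 ht
    have h1 := fiber q ({i | q.1 i = 1} : Finset (Fin n)) fun v =>
      ⟨(0, fun k i => if k = k₀ then v i else 0), fun i _ => by simp [fld, one _ hk]⟩
    rw [← h1, mul_one]
    exact Nat.mul_le_mul_right _ (sub _ Subset.rfl)

theorem few (n a : ℕ) : ∃ p : Par n a, (#(kept p) : ℝ) ≤ (2 ^ a + 1) * (3 / 2) ^ n := by
  refine (exists_le_of_sum_le (s := (univ : Finset (Par n a)))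
    (f := fun p => (#(kept p) : ℝ)) (g := fun _ => ((2 : ℝ) ^ a + 1) * (3 / 2) ^ n)
    univ_nonempty ?_).imp fun p hp => hp.2
  have h1 : ∑ p : Par n a, (#(kept p) : ℝ) = ∑ q : Pt n a, (#{p : Par n a | q ∈ kept p} : ℝ) := by
    norm_cast
    simp only [card_filter]
    rw [sum_comm]
    exact sum_congr rfl fun p _ => by simp
  have h2 : ∀ q : Pt n a, (#{p : Par n a | q ∈ kept p} : ℝ) ≤ Fintype.card (Par n a) *
      ((∏ i, if q.1 i = 1 then (1 / 2 : ℝ) else 1) * if q.2 = 0 then 2 else 1) := fun q => by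
    have h : (#{p : Par n a | q ∈ kept p} : ℝ) * 2 ^ #{i | q.1 i = 1} ≤
      Fintype.card (Par n a) * if q.2 = 0 then 2 else 1 := by exact_mod_cast rare q
    rw [prod_ite, prod_const_one, mul_one, prod_const, one_div, inv_pow, mul_left_comm,
      le_inv_mul_iff₀ (by positivity), mul_comm]
    exact h
  have h3 : ∑ y : Fin n → ZMod 2, ∏ i, (if y i = 1 then (1 / 2 : ℝ) else 1) = (3 / 2) ^ n := by
    have h := prod_univ_sum (fun _ : Fin n => (univ : Finset (ZMod 2)))
      fun _ u => if u = 1 then (1 / 2 : ℝ) else 1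
    rw [Fintype.piFinset_univ] at h
    rw [← h]
    have : ∑ u : ZMod 2, (if u = 1 then (1 / 2 : ℝ) else 1) = 3 / 2 := by
      rw [show (univ : Finset (ZMod 2)) = {0, 1} by decide, sum_pair (by decide)]
      norm_num
    rw [this, prod_const, card_univ, Fintype.card_fin]
  have h4 : ∑ t : Fin a → ZMod 2, (if t = 0 then (2 : ℝ) else 1) = 2 ^ a + 1 := by
    have : ∀ t : Fin a → ZMod 2, (if t = 0 then (2 : ℝ) else 1) = 1 + if t = 0 then 1 else 0 :=
      fun t => by split_ifs <;> norm_num
    simp [this, sum_add_distrib]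
  rw [h1, sum_const, card_univ, nsmul_eq_mul]
  refine (sum_le_sum fun q _ => h2 q).trans (le_of_eq ?_)
  rw [← mul_sum, Fintype.sum_prod_type, ← h3, ← h4, mul_comm (∑ t : Fin a → ZMod 2, _),
    sum_mul_sum]

end Pool.Agent.MP_4e8562_co.H80
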