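import Mathlib
import Pool.Agent.MP_4e8562_co.H66b.Exact
import Pool.Agent.MP_4e8562_co.H80.Lights

/-! Three colours: the covering number is the mean up to a logarithm. -/

namespace Pool.Agent.MP_4e8562_co.H80

open Finset Real Pool.Agent.MP_4e8562_co.H97 Pool.Agent.MP_4e8562_co.H66b

variable {n m : ℕ}

theorem Psi_super {r : ℕ} (hr : 0 < r) (n x y : ℕ) : Psi r n x + Psi r n y ≤ Psi r n (x + y) := by
  obtain ⟨W, hW⟩ := Psi_spec hr n x
  obtain ⟨W', hW'⟩ := Psi_spec hr n y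
  obtain ⟨c, hc⟩ := exists_le_Psi (x := x + y) hr (univ : Finset (Fin x ⊕ Fin y)) (by simp)
    (Sum.elim W W')
  refine (add_le_add (hW c) (hW' c)).trans (le_trans (le_of_eq ?_) hc)
  simp only [av, card_filter, Fintype.sum_sum_type, Sum.elim_inl, Sum.elim_inr]
  congr

theorem pow_le_Psi (n a : ℕ) : ∃ x : ℕ, (x : ℝ) ≤ (2 ^ a + 1) * (3 / 2) ^ n ∧ 2 ^ a ≤ Psi 3 n x := by
  obtain ⟨p, hp⟩ := few n a
  obtain ⟨c, hc⟩ := exists_le_Psi three_pos (kept p) rfl (word p)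
  exact ⟨_, hp, (many p c).trans (by convert hc)⟩

theorem le_Psi_log (n l : ℕ) :
    ∃ x : ℕ, (x : ℝ) ≤ (l + logb 2 (l + 1)) * (3 / 2) ^ n ∧ l ≤ Psi 3 n x := by
  induction l using Nat.strong_induction_on with
  | _ l ih =>
    rcases Nat.eq_zero_or_pos l with rfl | hl
    · exact ⟨0, by simp, Nat.zero_le _⟩
    have h1 := Nat.pow_log_le_self 2 hl.ne'
    have h2 := Nat.lt_pow_succ_log_self one_lt_two l
    obtain ⟨x, hx, hx'⟩ := pow_le_Psi n (Nat.log 2 l)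
    obtain ⟨k, hk⟩ := Nat.exists_eq_add_of_le h1
    set A := 2 ^ Nat.log 2 l with hA
    have hA0 : 0 < A := by positivity
    obtain ⟨y, hy, hy'⟩ := ih k (by omega)
    refine ⟨x + y, ?_, hk.le.trans ((add_le_add hx' hy').trans (Psi_super three_pos n x y))⟩
    have h3 : (l : ℝ) = 2 ^ Nat.log 2 l + k := by exact_mod_cast hk
    have h4 : 2 * ((k : ℝ) + 1) ≤ l + 1 := by
      have : 2 * (k + 1) ≤ l + 1 := by rw [pow_succ] at h2; omega
      exact_mod_cast this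
    have h5 : 1 + logb 2 ((k : ℝ) + 1) ≤ logb 2 (l + 1) := by
      refine le_trans (le_of_eq ?_) (logb_le_logb_of_le one_lt_two (by positivity) h4)
      rw [logb_mul two_ne_zero (by positivity), logb_self_eq_one one_lt_two]
    have h6 : (0 : ℝ) ≤ (3 / 2) ^ n := by positivity
    push_cast
    nlinarith

theorem lt_Psi (n m : ℕ) :
    m * (2 / 3 : ℝ) ^ n - logb 2 (m * (2 / 3 : ℝ) ^ n + 1) < Psi 3 n m + 1 := by
  set μ : ℝ := m * (2 / 3 : ℝ) ^ n with hμ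
  have h0 : 0 ≤ μ := by positivity
  have h1 : 0 ≤ logb 2 (μ + 1) := logb_nonneg one_lt_two (by linarith)
  obtain ⟨x, hx, hx'⟩ := le_Psi_log n ⌊μ - logb 2 (μ + 1)⌋₊
  refine (Nat.lt_floor_add_one _).trans_le (add_le_add_left (Nat.cast_le.2 ?_) _)
  rcases le_total (μ - logb 2 (μ + 1)) 0 with h | h
  · rw [Nat.floor_of_nonpos h]
    exact Nat.zero_le _
  refine hx'.trans (Psi_mono three_pos ?_)
  have h2 := Nat.floor_le h
  have h3 : logb 2 ((⌊μ - logb 2 (μ + 1)⌋₊ : ℝ) + 1) ≤ logb 2 (μ + 1) :=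
    logb_le_logb_of_le one_lt_two (by positivity) (by linarith)
  have h4 : μ * (3 / 2) ^ n = m := by
    rw [hμ, mul_assoc, ← mul_pow]
    norm_num
  have h6 : (0 : ℝ) ≤ (3 / 2) ^ n := by positivity
  have : (x : ℝ) ≤ m := by nlinarith
  exact_mod_cast this

theorem Psi_lt_Phi {r : ℕ} (hr : 0 < r) (hn : 1 ≤ n) : Psi r n m + 1 ≤ Phi r n m := by
  obtain ⟨W, hW⟩ := Psi_spec hr n m
  refine le_Phi hr W fun c => ?_
  have : 0 < #(univ.image c) := card_pos.2 ⟨c ⟨0, hn⟩, mem_image_of_mem _ (mem_univ _)⟩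
  have := hW c
  omega

theorem ternary (hn : 1 ≤ n) (hnm : n ≤ m) :
    m * (2 / 3 : ℝ) ^ n - logb 2 (m * (2 / 3 : ℝ) ^ n + 1) < tp 3 (K n m) ∧
      (tp 3 (K n m) : ℝ) ≤ m * (2 / 3 : ℝ) ^ n + 60400 := by
  obtain ⟨h1, h2, -, -, h3⟩ := all_range (r := 3) (by norm_num) hn hnm
  refine ⟨(lt_Psi n m).trans_le (by exact_mod_cast (Psi_lt_Phi three_pos hn).trans h1), ?_⟩
  have h4 : log (3 : ℝ) ≤ 1.1 := by
    rw [log_le_iff_le_exp three_pos, show (1.1 : ℝ) = 1 + 0.1 by norm_num, exp_add]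
    nlinarith [exp_one_gt_d9, add_one_le_exp (0.1 : ℝ), quadratic_le_exp_of_nonneg (x := 0.1) (by norm_num)]
  norm_num at h2 h3 ⊢
  linarith

end Pool.Agent.MP_4e8562_co.H80
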