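import Mathlib
import Pool.Agent.MP_4e8562_co.H97.Kernel
import Pool.Agent.MP_4e8562_co.H80.Ternary
import Pool.Agent.MP_4e8562_co.H80.Glue

/-! The statement for all parameters with the sharper bounds for at most three colours. -/

namespace Pool.Agent.MP_4e8562_co.H80

open Finset Real Pool.Agent.MP_4e8562_co.H97 Pool.Agent.MP_4e8562_co.H66b

variable {n m r : ℕ}

theorem bad_set (hr : 2 ≤ r) (W : Fin m → Fin n → Fin r) {x x' : Fin n} (hx : x ≠ x') {j : Fin r}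
    (h : ¬ adj W j x x') : ∃ (F : Finset (Fin n)) (s : Fin r), #F ≤ 2 ∧
      (#{b | ∀ z ∈ F, W b z ≠ s} : ℝ) ≤
        m * ((1 - 1 / (r : ℝ)) ^ #F * (1 - 1 / (2 * r ^ 3))) + (n + r) := by
  have hr2 : (2 : ℝ) ≤ r := by exact_mod_cast hr
  have h0 : 0 < 1 - 1 / (r : ℝ) := by rw [sub_pos, div_lt_one] <;> linarith
  have h1 : 1 - 1 / (r : ℝ) ≤ 1 := sub_le_self _ (by positivity)
  set ρ : ℝ := 1 - 1 / (r : ℝ) with hρ
  set ε : ℝ := 1 / (2 * r ^ 3) with hε
  have hε0 : 0 < ε := by positivity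
  have hm0 : (0 : ℝ) ≤ m := Nat.cast_nonneg _
  by_cases hc : ∃ z s, m * (1 / r + ε) ≤ (#{b | W b z = s} : ℝ)
  · obtain ⟨z, s, hz⟩ := hc
    refine ⟨{z}, s, by simp, le_trans ?_ (le_add_of_nonneg_right (by positivity))⟩
    have e2 := card_filter_add_card_filter_not (s := (univ : Finset (Fin m))) fun b => W b z = s
    rw [card_univ, Fintype.card_fin] at e2
    have e3 := congrArg (Nat.cast (R := ℝ)) e2
    simp only [mem_singleton, forall_eq, ne_eq, card_singleton, pow_one]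
    push_cast at e3
    nlinarith [mul_nonneg hm0 (mul_nonneg hε0.le (sub_nonneg.2 h1))]
  · push Not at hc
    have key : ∀ z, m * (1 / r - (r - 1) * ε) ≤ (#{b | W b z = j} : ℝ) := fun z => by
      have a1 := card_eq_sum_card_fiberwise (s := (univ : Finset (Fin m))) (f := fun b => W b z)
        (t := univ) fun _ _ => mem_coe.2 (mem_univ _)
      rw [card_univ, Fintype.card_fin, ← add_sum_erase _ _ (mem_univ j)] at a1
      have a2 := congrArg (Nat.cast (R := ℝ)) a1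
      push_cast at a2
      have a3 := sum_le_card_nsmul (univ.erase j) _ _ fun s _ => (hc z s).le
      rw [card_erase_of_mem (mem_univ _), card_univ, Fintype.card_fin, nsmul_eq_mul,
        Nat.cast_sub (by omega), Nat.cast_one] at a3
      have a4 : (r - 1 : ℝ) * (m * (1 / r + ε)) = m - m * (1 / r - (r - 1) * ε) := by
        field_simp
        ring
      linarith
    refine ⟨{x, x'}, j, (card_pair hx).le, ?_⟩
    have e2 : #{b | ∀ z ∈ ({x, x'} : Finset (Fin n)), W b z ≠ j} + #{b | W b x = j} +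
        #{b | W b x' = j} = m + #{b | W b x = j ∧ W b x' = j} := by
      rw [add_assoc, ← card_union_add_card_inter, ← add_assoc, ← filter_and, ← filter_or]
      congr 1
      rw [add_comm]
      convert card_filter_add_card_filter_not (s := (univ : Finset (Fin m)))
        fun b => W b x = j ∨ W b x' = j using 3
      · ext b
        simp
      · simp
    have e3 := congrArg (Nat.cast (R := ℝ)) e2
    have e4 : (#{b | W b x = j ∧ W b x' = j} : ℝ) ≤ n + r := by exact_mod_cast (not_le.1 h).le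
    push_cast at e3
    have e5 : 1 - 2 * (1 / r - (r - 1) * ε) = ρ ^ 2 - 2 * ε := by
      rw [hρ, hε]
      field_simp
      ring
    have := key x
    have := key x'
    have : ρ ^ 2 ≤ 1 := pow_le_one₀ h0.le h1
    have : m * (ρ ^ 2 - 2 * ε) ≤ m * (ρ ^ 2 * (1 - ε)) :=
      mul_le_mul_of_nonneg_left (by nlinarith) hm0
    rw [← e5] at this
    rw [card_pair hx]
    linarith

theorem good_part (hr : 2 ≤ r) (hm : 0 < m) (χ : (K n m).edgeSet → Fin r)
    (h : ∀ j x x', x ≠ x' → adj (vec χ) j x x') : Part (K n m) χ (Phi r n m) := by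
  obtain ⟨c, hc⟩ := exists_le_Phi (by omega) (vec χ)
  refine (part_of_plan (by omega) χ c {x | ∀ z, c z = c x → x ≤ z} ∅ (fun _ => ⟨0, hm⟩)
    (by simp) fun x _ hx => ?_).mono (le_trans (Nat.add_le_add_right ?_ _) hc)
  · obtain ⟨x', a1, a2⟩ := exists_min_image {z | c z = c x} id ⟨x, by simp⟩
    have a3 := (mem_filter.1 a1).2
    have a4 : x' ∈ ({x | ∀ z, c z = c x → x ≤ z} : Finset (Fin n)) :=
      mem_filter.2 ⟨mem_univ _, fun z hz => a2 z (mem_filter.2 ⟨mem_univ _, hz.trans a3⟩)⟩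
    exact ⟨x', a4, a3, h _ _ _ fun e => hx (e ▸ a4)⟩
  · rw [image_empty, card_empty, add_zero]
    exact card_le_card_of_injOn c (fun x _ => mem_image_of_mem _ (mem_univ _))
      fun x hx x' hx' e => le_antisymm ((mem_filter.1 hx).2 _ e.symm) ((mem_filter.1 hx').2 _ e)

theorem exact_of (hr : 2 ≤ r) (hn : 1 ≤ n) (hnm : n ≤ m)
    (hP : m * (1 - 1 / (r : ℝ)) ^ n * (1 - 1 / (2 * r ^ 3)) + (2 * r + 4) +
      6100 * r ^ 2 * log r ≤ Phi r n m) (χ : (K n m).edgeSet → Fin r) :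
    Part (K n m) χ (Phi r n m) := by
  by_cases h : ∀ j x x', x ≠ x' → adj (vec χ) j x x'
  · exact good_part hr (by omega) χ h
  push Not at h
  obtain ⟨j, x, x', hx, h⟩ := h
  obtain ⟨F, s, hF, hs⟩ := bad_set hr (vec χ) hx h
  have hr2 : (2 : ℝ) ≤ r := by exact_mod_cast hr
  have h0 : 0 < 1 - 1 / (r : ℝ) := by rw [sub_pos, div_lt_one] <;> linarith
  have h1 : 1 - 1 / (r : ℝ) ≤ 1 := sub_le_self _ (by positivity)
  have h2 : 0 ≤ 1 - 1 / (2 * (r : ℝ) ^ 3) := by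
    rw [sub_nonneg, div_le_one (by positivity)]
    nlinarith [one_le_pow₀ (n := 3) (by linarith : (1 : ℝ) ≤ r)]
  obtain ⟨k, k1, k2⟩ := upper_fix hr hn hnm χ F s
    ((le_add_of_nonneg_right (by positivity)).trans (le_add_of_nonneg_left (by positivity))) hs
  refine k1.mono (Nat.cast_le.1 (k2.trans (le_trans ?_ hP)))
  have e : #F + #Fᶜ = n := by rw [card_add_card_compl, Fintype.card_fin]
  have h3 := mul_rho_le hr #Fᶜ
  have h4 : (#F : ℝ) ≤ 2 := by exact_mod_cast hF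
  have h5 : (1 - 1 / (r : ℝ)) ^ #Fᶜ ≤ 1 := pow_le_one₀ h0.le h1
  have h6 := pow_pos h0 #Fᶜ
  have h7 : (n : ℝ) = #F + #Fᶜ := by exact_mod_cast e.symm
  have h8 : (1 - 1 / (r : ℝ)) ^ n = (1 - 1 / (r : ℝ)) ^ #F * (1 - 1 / (r : ℝ)) ^ #Fᶜ := by
    rw [← pow_add, e]
  rw [h8, h7]
  nlinarith [mul_le_mul h4 h5 h6.le (by norm_num), mul_le_mul_of_nonneg_left h5 (by linarith : (0 : ℝ) ≤ r)]

theorem lt_Phi (hr : 2 ≤ r) (hr3 : r ≤ 3) (hn : 1 ≤ n) :
    m * (1 - 1 / (r : ℝ)) ^ n - logb 2 (m * (1 - 1 / (r : ℝ)) ^ n + 1) < Phi r n m := by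
  have h1 : (Psi r n m : ℝ) + 1 ≤ Phi r n m := by exact_mod_cast Psi_lt_Phi (by omega) hn
  refine lt_of_lt_of_le ?_ h1
  obtain rfl | rfl : r = 2 ∨ r = 3 := by omega
  · have h2 := Psi_ge (n := n) two_pos m
    have h3 : m < 2 ^ n * (Psi 2 n m + 1) :=
      (Nat.lt_mul_div_succ m (by positivity)).trans_le (Nat.mul_le_mul_left _ (by simpa using h2))
    have h4 : (m : ℝ) < 2 ^ n * (Psi 2 n m + 1) := by exact_mod_cast h3
    have h5 : m * (1 - 1 / ((2 : ℕ) : ℝ)) ^ n < Psi 2 n m + 1 := by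
      rw [show 1 - 1 / ((2 : ℕ) : ℝ) = 2⁻¹ by norm_num, inv_pow, ← div_eq_mul_inv,
        div_lt_iff₀' (by positivity)]
      exact h4
    refine (sub_le_self _ (logb_nonneg one_lt_two (le_add_of_nonneg_left ?_))).trans_lt h5
    norm_num
  · rw [show 1 - 1 / ((3 : ℕ) : ℝ) = 2 / 3 by norm_num]
    exact lt_Psi n m

theorem logb_le {μ : ℝ} (h : 0 ≤ μ) : logb 2 (μ + 1) ≤ μ / 600 + 1500 := by
  have h1 := log_le_sub_one_of_pos (x := (μ + 1) / 1000) (by positivity)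
  have h2 := log_le_sub_one_of_pos (x := 1000) (by norm_num)
  rw [log_div (by positivity) (by norm_num)] at h1
  rw [logb, div_le_iff₀ (log_pos one_lt_two)]
  nlinarith [log_two_gt_d9]

theorem all_range' (hr : 2 ≤ r) (hn : 1 ≤ n) (hnm : n ≤ m) :
    Phi r n m ≤ tp r (K n m) ∧ (tp r (K n m) : ℝ) ≤ Phi r n m + 6100 * r ^ 2 * log r ∧
    (32 * r ^ 6 * n * log r ≤ m * (1 - 1 / (r : ℝ)) ^ n ∨
      r ≤ 3 ∧ 4000000 ≤ m * (1 - 1 / (r : ℝ)) ^ n → tp r (K n m) = Phi r n m) ∧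
    m * (1 - 1 / (r : ℝ)) ^ n - (if r ≤ 3 then logb 2 (m * (1 - 1 / (r : ℝ)) ^ n + 1) else
      √(2 * (m * (1 - 1 / (r : ℝ)) ^ n) * (n * log r))) ≤ Phi r n m ∧
    (Phi r n m : ℝ) ≤ m * (1 - 1 / (r : ℝ)) ^ n + r := by
  obtain ⟨h1, h2, h3, h4, h5⟩ := all_range hr hn hnm
  refine ⟨h1, h2, ?_, ?_, h5⟩
  · rintro (h | ⟨h, h'⟩)
    · exact h3 h
    refine le_antisymm (Nat.sInf_le (exact_of hr hn hnm (le_trans ?_ (lt_Phi hr h hn).le))) h1
    generalize m * (1 - 1 / (r : ℝ)) ^ n = μ at *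
    have h6 := logb_le (μ := μ) (by linarith)
    have h7 : log (3 : ℝ) ≤ 1.1 := by
      rw [log_le_iff_le_exp three_pos, show (1.1 : ℝ) = 1 + 0.1 by norm_num, exp_add]
      nlinarith [exp_one_gt_d9, quadratic_le_exp_of_nonneg (x := 0.1) (by norm_num)]
    obtain rfl | rfl : r = 2 ∨ r = 3 := by omega
    · push_cast
      nlinarith [log_two_lt_d9]
    · push_cast
      linarith
  · split_ifs with h
    · exact (lt_Phi hr h hn).le
    · exact h4

end Pool.Agent.MP_4e8562_co.H80
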